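import Mathlib
import Pool.Agent.H64.LB.Hom

/-!
# Fibration lemma: definitions (MP_2059f1_ag, block 1)

`BT b0` is the set of points of the universal cover (pairs of a point and a homotopy class of paths
from `b0`), `Leg b0 T` the maps `T → BT b0` which are compatible with paths, `CS b0 n` the simplices
of the universal cover, `EE f` the total space of the path fibration of `f : A → B`, `F0` its fibre
over the base point of the universal cover.
-/

open Topology Set
open scoped unitInterval
open Pool.Agent.H59 Pool.Agent.H64.LB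

namespace Pool.Agent.H93.FB

noncomputable section

/-- homotopy classes of paths -/
abbrev PQ {X : Type} [TopologicalSpace X] (x y : X) : Type := Path.Homotopic.Quotient x y

instance : ContractibleSpace I :=
  (convex_Icc (0 : ℝ) 1).contractibleSpace ⟨0, by simp⟩

variable {B : Type} [TopologicalSpace B]

/-- points of the universal cover of `B` -/
def BT (b0 : B) : Type := Σ b : B, PQ b0 b

namespace BT

variable {b0 : B}

/-- the base point -/
def one (b0 : B) : BT b0 := ⟨b0, Path.Homotopic.Quotient.refl b0⟩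

/-- transport along a path -/
def tr (x : BT b0) {b b' : B} (h : x.1 = b) (γ : Path b b') : BT b0 :=
  ⟨b', (x.2.cast rfl h.symm).trans (Path.Homotopic.Quotient.mk γ)⟩

/-- the action of loops at `b0` -/
def act (g : PQ b0 b0) (x : BT b0) : BT b0 := ⟨x.1, g.trans x.2⟩

theorem ext_iff' {x y : BT b0} : x = y ↔ ∃ h : x.1 = y.1, x.2.cast rfl h.symm = y.2 := by
  constructor
  · rintro rfl
    exact ⟨rfl, Path.Homotopic.Quotient.cast_rfl_rfl _⟩
  · obtain ⟨x1, x2⟩ := x
    obtain ⟨y1, y2⟩ := y
    rintro ⟨h, h'⟩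
    change x1 = y1 at h
    subst h
    rw [Path.Homotopic.Quotient.cast_rfl_rfl] at h'
    subst h'
    rfl

theorem one_act (x : BT b0) : act (Path.Homotopic.Quotient.refl b0) x = x := by
  obtain ⟨x1, x2⟩ := x
  simp [act]

theorem act_act (g g' : PQ b0 b0) (x : BT b0) : act g (act g' x) = act (g.trans g') x := by
  obtain ⟨x1, x2⟩ := x
  simp [act]

end BT

/-- Legal maps: maps `T → BT b0` with continuous projection to `B` which carry every path to the
transport along its projection. -/
structure Leg (b0 : B) (T : Type) [TopologicalSpace T] where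
  toFun : T → BT b0
  cont : Continuous fun t => (toFun t).1
  leg : ∀ (t t' : T) (γ : Path t t'), (toFun t').2 = (toFun t).2.trans (Path.Homotopic.Quotient.mk (γ.map cont))

namespace Leg

variable {b0 : B} {T T' T'' : Type} [TopologicalSpace T] [TopologicalSpace T']
  [TopologicalSpace T'']

theorem ext' {s r : Leg b0 T} (h : ∀ t, s.toFun t = r.toFun t) : s = r := by
  obtain ⟨f, hf, hf'⟩ := s
  obtain ⟨g, hg, hg'⟩ := r
  have : f = g := funext h
  subst this
  rfl

/-- composition with a continuous map -/
def comp (s : Leg b0 T) (φ : C(T', T)) : Leg b0 T' where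
  toFun t := s.toFun (φ t)
  cont := s.cont.comp φ.continuous
  leg t t' γ := s.leg (φ t) (φ t') (γ.map φ.continuous)

@[simp] theorem comp_toFun (s : Leg b0 T) (φ : C(T', T)) (t : T') :
    (s.comp φ).toFun t = s.toFun (φ t) := rfl

theorem comp_comp (s : Leg b0 T) (φ : C(T', T)) (ψ : C(T'', T')) :
    (s.comp φ).comp ψ = s.comp (φ.comp ψ) := rfl

/-- the underlying continuous map -/
def fg (s : Leg b0 T) : C(T, B) := ⟨fun t => (s.toFun t).1, s.cont⟩

@[simp] theorem fg_comp (s : Leg b0 T) (φ : C(T', T)) : (s.comp φ).fg = s.fg.comp φ := rfl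

/-- the action of loops -/
def act (g : PQ b0 b0) (s : Leg b0 T) : Leg b0 T where
  toFun t := BT.act g (s.toFun t)
  cont := s.cont
  leg t t' γ := by
    change g.trans (s.toFun t').2 = (g.trans (s.toFun t).2).trans _
    rw [s.leg t t' γ, Path.Homotopic.Quotient.trans_assoc]
    rfl

@[simp] theorem act_toFun (g : PQ b0 b0) (s : Leg b0 T) (t : T) :
    (act g s).toFun t = BT.act g (s.toFun t) := rfl

theorem act_comp (g : PQ b0 b0) (s : Leg b0 T) (φ : C(T', T)) :
    (act g s).comp φ = act g (s.comp φ) := rfl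

@[simp] theorem fg_act (g : PQ b0 b0) (s : Leg b0 T) : (act g s).fg = s.fg := rfl

/-- the constant legal map -/
def cst (x : BT b0) (T : Type) [TopologicalSpace T] : Leg b0 T where
  toFun _ := x
  cont := continuous_const
  leg t t' γ := by
    have : Path.Homotopic.Quotient.mk (γ.map (continuous_const : Continuous fun _ : T => x.1)) =
        Path.Homotopic.Quotient.refl x.1 := rfl
    rw [this]
    simp

/-- legal maps on a path connected space which agree at a point and have the same projection are
equal -/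
theorem eq_of_eq_at [PathConnectedSpace T] {s r : Leg b0 T} (h : s.fg = r.fg) (t0 : T)
    (h0 : s.toFun t0 = r.toFun t0) : s = r := by
  obtain ⟨f, hf, hf'⟩ := s
  obtain ⟨g, hg, hg'⟩ := r
  have h1 : ∀ t, (f t).1 = (g t).1 := fun t => DFunLike.congr_fun h t
  refine ext' (fun t => ?_)
  change f t = g t
  have γ : Path t0 t := PathConnectedSpace.somePath t0 t
  rw [BT.ext_iff']
  refine ⟨h1 t, ?_⟩
  rw [hf' t0 t γ, hg' t0 t γ]
  have key : ∀ (x y : BT b0) (z w : B) (p : Path x.1 z) (q : Path y.1 w) (hzw : z = w),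
      x = y → (∀ s, p s = q s) → (x.2.trans (Path.Homotopic.Quotient.mk p)).cast rfl hzw.symm =
        y.2.trans (Path.Homotopic.Quotient.mk q) := by
    rintro x y z w p q rfl rfl hpq
    have : p = q := by
      ext s
      exact hpq s
    rw [this, Path.Homotopic.Quotient.cast_rfl_rfl]
  exact key (f t0) (g t0) _ _ _ _ (h1 t) h0 (fun s => h1 (γ s))

/-- the legal lift of a map on a simply connected space -/
def lift [SimplyConnectedSpace T] (φ : C(T, B)) (t0 : T) (x : PQ b0 (φ t0)) : Leg b0 T where
  toFun t := ⟨φ t, x.trans (Path.Homotopic.Quotient.mk ((PathConnectedSpace.somePath t0 t).map φ.continuous))⟩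
  cont := φ.continuous
  leg t t' γ := by
    change x.trans _ = (x.trans _).trans _
    rw [Path.Homotopic.Quotient.trans_assoc]
    congr 1
    have h1 : Path.Homotopic.Quotient.mk ((PathConnectedSpace.somePath t0 t).trans γ) =
        Path.Homotopic.Quotient.mk (PathConnectedSpace.somePath t0 t') := Subsingleton.elim _ _
    have h2 := congrArg (fun p => Path.Homotopic.Quotient.map p φ) h1
    rw [← Path.Homotopic.Quotient.mk_map, ← Path.Homotopic.Quotient.mk_map, Path.map_trans,
      Path.Homotopic.Quotient.mk_trans] at h2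
    exact h2.symm

@[simp] theorem lift_fg [SimplyConnectedSpace T] (φ : C(T, B)) (t0 : T) (x : PQ b0 (φ t0)) :
    (lift φ t0 x).fg = φ := rfl

theorem lift_at [SimplyConnectedSpace T] (φ : C(T, B)) (t0 : T) (x : PQ b0 (φ t0)) :
    (lift φ t0 x).toFun t0 = ⟨φ t0, x⟩ := by
  change (⟨φ t0, x.trans (Path.Homotopic.Quotient.mk ((PathConnectedSpace.somePath t0 t0).map φ.continuous))⟩ : BT b0) = _
  have h1 : Path.Homotopic.Quotient.mk (PathConnectedSpace.somePath t0 t0) = Path.Homotopic.Quotient.mk (Path.refl t0) := Subsingleton.elim _ _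
  have h2 := congrArg (fun p => Path.Homotopic.Quotient.map p φ) h1
  rw [← Path.Homotopic.Quotient.mk_map, ← Path.Homotopic.Quotient.mk_map] at h2
  have h3 : Path.Homotopic.Quotient.mk ((Path.refl t0).map φ.continuous) = Path.Homotopic.Quotient.refl (φ t0) := rfl
  rw [h2, h3]
  simp

end Leg

/-! ### The chain complex of the universal cover -/

/-- simplices (with `n` vertices) of the universal cover -/
abbrev CS (b0 : B) (n : ℕ) : Type := Leg b0 (Dl n)

/-- faces -/
def cfc {b0 : B} {n : ℕ} (s : CS b0 (n + 1)) (i : Fin (n + 1)) : CS b0 n := s.comp (cf i)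

/-- chains of the universal cover -/
abbrev CC (b0 : B) (n : ℕ) : Type := CS b0 n →₀ ℚ

/-- the boundary -/
def cbd (b0 : B) (n : ℕ) : CC b0 (n + 1) →ₗ[ℚ] CC b0 n := altbd ℚ (fun s i => cfc s i)

theorem cbd_single (b0 : B) (n : ℕ) (s : CS b0 (n + 1)) (r : ℚ) :
    cbd b0 n (Finsupp.single s r) =
      r • ∑ i : Fin (n + 1), (-1 : ℚ) ^ (i : ℕ) • Finsupp.single (cfc s i) (1 : ℚ) :=
  altbd_single ℚ _ s r

theorem cfc_cfc {b0 : B} {n : ℕ} (s : CS b0 (n + 2)) (i j : Fin (n + 1)) (hij : i ≤ j) :
    cfc (cfc s j.succ) i = cfc (cfc s i.castSucc) j := by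
  simp only [cfc, Leg.comp_comp, cf_comp_cf i j hij]

@[simp] theorem cbd_cbd (b0 : B) (n : ℕ) (x : CC b0 (n + 2)) : cbd b0 n (cbd b0 (n + 1) x) = 0 :=
  altbd_altbd ℚ _ _ (fun a i j hij => cfc_cfc a i j hij) x

/-- forgetting the classes -/
def fgC (b0 : B) (n : ℕ) : CC b0 n →ₗ[ℚ] Ch ℚ n B := Finsupp.lmapDomain ℚ ℚ Leg.fg

@[simp] theorem fgC_single (b0 : B) (n : ℕ) (s : CS b0 n) (r : ℚ) :
    fgC b0 n (Finsupp.single s r) = Finsupp.single s.fg r := by
  simp [fgC, Finsupp.mapDomain_single]

theorem bd_fgC (b0 : B) (n : ℕ) (x : CC b0 (n + 1)) :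
    bd ℚ n B (fgC b0 (n + 1) x) = fgC b0 n (cbd b0 n x) :=
  altbd_mapDomain ℚ (fun s i => cfc s i) (fun s i => fc s i) Leg.fg Leg.fg (fun _ _ => rfl) x

/-- the action of loops on chains -/
def actC {b0 : B} (g : PQ b0 b0) (n : ℕ) : CC b0 n →ₗ[ℚ] CC b0 n :=
  Finsupp.lmapDomain ℚ ℚ (Leg.act g)

@[simp] theorem actC_single {b0 : B} (g : PQ b0 b0) (n : ℕ) (s : CS b0 n) (r : ℚ) :
    actC g n (Finsupp.single s r) = Finsupp.single (s.act g) r := by
  simp [actC, Finsupp.mapDomain_single]

theorem cbd_actC {b0 : B} (g : PQ b0 b0) (n : ℕ) (x : CC b0 (n + 1)) :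
    cbd b0 n (actC g (n + 1) x) = actC g n (cbd b0 n x) :=
  altbd_mapDomain ℚ (fun s i => cfc s i) (fun s i => cfc s i) (Leg.act g) (Leg.act g)
    (fun _ _ => rfl) x

/-! ### The path fibration -/

variable {A : Type} [TopologicalSpace A]

/-- the total space of the path fibration of `f` : points `a` of `A` with a path from `f a` -/
def EE (f : C(A, B)) : Type := {e : A × C(I, B) // e.2 0 = f e.1}

instance (f : C(A, B)) : TopologicalSpace (EE f) := instTopologicalSpaceSubtype

namespace EE

variable {f : C(A, B)}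

/-- the point of `A` -/
def pa (f : C(A, B)) : C(EE f, A) := ⟨fun e => e.1.1, continuous_fst.comp continuous_subtype_val⟩

/-- the end point -/
def endp (f : C(A, B)) : C(EE f, B) :=
  ⟨fun e => e.1.2 1, (continuous_eval_const (1 : I)).comp
    (continuous_snd.comp continuous_subtype_val)⟩

/-- the path -/
def pth (e : EE f) : Path (f (pa f e)) (endp f e) := ⟨e.1.2, e.2, rfl⟩

theorem ext' {e e' : EE f} (h : pa f e = pa f e') (h' : ∀ t, e.1.2 t = e'.1.2 t) : e = e' :=
  Subtype.ext (Prod.ext h (ContinuousMap.ext h'))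

/-- a family of points of `EE f` given by formulas -/
def fam {X : Type} [TopologicalSpace X] (a : C(X, A)) (g : C(X × I, B))
    (h : ∀ x, g (x, 0) = f (a x)) : C(X, EE f) :=
  ⟨fun x => ⟨(a x, g.curry x), h x⟩,
    (a.continuous.prodMk g.curry.continuous).subtype_mk _⟩

@[simp] theorem fam_pa {X : Type} [TopologicalSpace X] (a : C(X, A)) (g : C(X × I, B))
    (h : ∀ x, g (x, 0) = f (a x)) (x : X) : pa f (fam a g h x) = a x := rfl

@[simp] theorem fam_pth {X : Type} [TopologicalSpace X] (a : C(X, A)) (g : C(X × I, B))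
    (h : ∀ x, g (x, 0) = f (a x)) (x : X) (t : I) : (fam a g h x).1.2 t = g (x, t) := rfl

@[simp] theorem fam_endp {X : Type} [TopologicalSpace X] (a : C(X, A)) (g : C(X × I, B))
    (h : ∀ x, g (x, 0) = f (a x)) (x : X) : endp f (fam a g h x) = g (x, 1) := rfl

/-- the two variable evaluation map -/
def ev (f : C(A, B)) : C(EE f × I, B) :=
  ⟨fun p => p.1.1.2 p.2, by
    have h1 : Continuous fun p : EE f × I => (p.1.1.2, p.2) :=
      ((continuous_snd.comp continuous_subtype_val).comp continuous_fst).prodMk continuous_snd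
    exact ContinuousEval.continuous_eval.comp h1⟩

@[simp] theorem ev_apply (f : C(A, B)) (e : EE f) (t : I) : ev f (e, t) = e.1.2 t := rfl

end EE

/-- a square: the two ways around are homotopic -/
theorem square {X : Type} [TopologicalSpace X] (H : C(I × I, X)) {a b c d : X}
    (p : Path a b) (q : Path b d) (r : Path a c) (s : Path c d)
    (hp : ∀ t, p t = H (t, 0)) (hq : ∀ t, q t = H (1, t)) (hr : ∀ t, r t = H (0, t))
    (hs : ∀ t, s t = H (t, 1)) : Path.Homotopic.Quotient.mk (p.trans q) = Path.Homotopic.Quotient.mk (r.trans s) := by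
  have e0 : H (0, 0) = a := by rw [← hp, p.source]
  have e1 : H (1, 0) = b := by rw [← hp, p.target]
  have e2 : H (1, 1) = d := by rw [← hq, q.target]
  have e3 : H (0, 1) = c := by rw [← hr, r.target]
  subst e0 e1 e2 e3
  let P : Path ((0 : I), (0 : I)) (1, 0) := ⟨⟨fun t => (t, 0), by fun_prop⟩, rfl, rfl⟩
  let Q : Path ((1 : I), (0 : I)) (1, 1) := ⟨⟨fun t => (1, t), by fun_prop⟩, rfl, rfl⟩
  let R : Path ((0 : I), (0 : I)) (0, 1) := ⟨⟨fun t => (0, t), by fun_prop⟩, rfl, rfl⟩
  let S : Path ((0 : I), (1 : I)) (1, 1) := ⟨⟨fun t => (t, 1), by fun_prop⟩, rfl, rfl⟩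
  have h1 : Path.Homotopic.Quotient.mk (P.trans Q) = Path.Homotopic.Quotient.mk (R.trans S) := Subsingleton.elim _ _
  have h2 := congrArg (fun z => Path.Homotopic.Quotient.map z H) h1
  rw [← Path.Homotopic.Quotient.mk_map, ← Path.Homotopic.Quotient.mk_map, Path.map_trans,
    Path.map_trans] at h2
  have a1 : P.map H.continuous = p := by ext t; exact (hp t).symm
  have a2 : Q.map H.continuous = q := by ext t; exact (hq t).symm
  have a3 : R.map H.continuous = r := by ext t; exact (hr t).symm
  have a4 : S.map H.continuous = s := by ext t; exact (hs t).symm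
  rw [a1, a2, a3, a4] at h2
  exact h2

section cl

variable (f : C(A, B)) (a0 : A) [SimplyConnectedSpace A]

/-- the class of a point of the path fibration, `A` simply connected -/
def clf (e : EE f) : BT (f a0) :=
  ⟨EE.endp f e, (Path.Homotopic.Quotient.mk ((PathConnectedSpace.somePath a0 (EE.pa f e)).map f.continuous)).trans
    (Path.Homotopic.Quotient.mk e.pth)⟩

/-- the legal map given by the classes -/
def cl : Leg (f a0) (EE f) where
  toFun := clf f a0
  cont := (EE.endp f).continuous
  leg e e' γ := by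
    change (Path.Homotopic.Quotient.mk _).trans (Path.Homotopic.Quotient.mk e'.pth) = ((Path.Homotopic.Quotient.mk _).trans (Path.Homotopic.Quotient.mk e.pth)).trans _
    -- the square
    have hsq := square (X := B)
      ((EE.ev f).comp ⟨fun x : I × I => (γ x.1, x.2), by fun_prop⟩)
      (((γ.map (EE.pa f).continuous).map f.continuous)) e'.pth e.pth
      (γ.map (EE.endp f).continuous) (fun t => ((γ t).2).symm)
      (fun t => by
        change e'.1.2 t = (γ 1).1.2 t
        rw [γ.target])
      (fun t => by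
        change e.1.2 t = (γ 0).1.2 t
        rw [γ.source]) (fun t => rfl)
    have h1 : Path.Homotopic.Quotient.mk ((PathConnectedSpace.somePath a0 (EE.pa f e)).trans
        (γ.map (EE.pa f).continuous)) = Path.Homotopic.Quotient.mk (PathConnectedSpace.somePath a0 (EE.pa f e')) :=
      Subsingleton.elim _ _
    have h2 := congrArg (fun z => Path.Homotopic.Quotient.map z f) h1
    rw [← Path.Homotopic.Quotient.mk_map, ← Path.Homotopic.Quotient.mk_map, Path.map_trans,
      Path.Homotopic.Quotient.mk_trans] at h2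
    rw [Path.Homotopic.Quotient.mk_trans, Path.Homotopic.Quotient.mk_trans] at hsq
    rw [← h2, Path.Homotopic.Quotient.trans_assoc, hsq, Path.Homotopic.Quotient.trans_assoc]
    rfl

@[simp] theorem cl_toFun (e : EE f) : (cl f a0).toFun e = clf f a0 e := rfl

/-- the fibre over the base point of the universal cover: for `A` a point, the component of the
constant loop in the loop space -/
def F0 : Type := {e : EE f // clf f a0 e = BT.one (f a0)}

instance : TopologicalSpace (F0 f a0) := instTopologicalSpaceSubtype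

/-- the inclusion of the fibre -/
def F0.inc : C(F0 f a0, EE f) := ⟨Subtype.val, continuous_subtype_val⟩

/-- the base point of the path fibration -/
def starE : EE f := ⟨(a0, ContinuousMap.const I (f a0)), rfl⟩

theorem clf_starE : clf f a0 (starE f a0) = BT.one (f a0) := by
  have h1 : Path.Homotopic.Quotient.mk (PathConnectedSpace.somePath a0 a0) = Path.Homotopic.Quotient.mk (Path.refl a0) := Subsingleton.elim _ _
  have h2 := congrArg (fun z => Path.Homotopic.Quotient.map z f) h1
  rw [← Path.Homotopic.Quotient.mk_map, ← Path.Homotopic.Quotient.mk_map] at h2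
  have h3 : Path.Homotopic.Quotient.mk ((Path.refl a0).map f.continuous) = Path.Homotopic.Quotient.refl (f a0) := rfl
  have h4 : clf f a0 (starE f a0) =
      ⟨f a0, (Path.Homotopic.Quotient.mk
        ((PathConnectedSpace.somePath a0 a0).map f.continuous)).trans
          (Path.Homotopic.Quotient.refl (f a0))⟩ := rfl
  rw [h4, h2, h3]
  simp [BT.one]

/-- the base point of the fibre -/
def star : F0 f a0 := ⟨starE f a0, clf_starE f a0⟩

theorem F0.endp_eq (e : F0 f a0) : EE.endp f e.1 = f a0 := congrArg Sigma.fst e.2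

end cl

end

end Pool.Agent.H93.FB
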