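import Pool.Agent.H93.FB.Targets
import Pool.Agent.H59.Connect
import Pool.Agent.H64.LB.Targets

/-!
# Fibration lemma: assemblies (MP_2059f1_ag, block F)

`tc : T_TC` (null-homotopic loops in a space with acyclic universal cover) and `acff : T_ACFF`
(homotopy fibre of a homology isomorphism between simply connected spaces).
-/

open Topology Set
open scoped unitInterval ContinuousMap
open Pool.Agent.H59 Pool.Agent.H64.LB

namespace Pool.Agent.H93.FB

open Pool.Agent.H64.FB

/-- path connected spaces have no reduced homology in degree zero -/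
theorem acyc_zero (hDI : T_DI) (Y : Type) [TopologicalSpace Y] [PathConnectedSpace Y] :
    Acyc ℚ 0 Y := by
  obtain ⟨y0⟩ := (inferInstance : Nonempty Y)
  obtain ⟨-, -, hj, -, -⟩ := hDI ℚ Y
  have key : ∀ z : Ch ℚ 1 Y, ∃ (c : ℚ) (w : Ch ℚ 2 Y),
      z = Finsupp.single (ContinuousMap.const _ y0) c + bd ℚ 1 Y w := by
    intro z
    induction z using Finsupp.induction_linear with
    | zero => exact ⟨0, 0, by simp⟩
    | add u v hu hv =>
      obtain ⟨c, w, hw⟩ := hu
      obtain ⟨c', w', hw'⟩ := hv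
      refine ⟨c + c', w + w', ?_⟩
      rw [map_add, Finsupp.single_add]
      calc u + v = (Finsupp.single (ContinuousMap.const _ y0) c + bd ℚ 1 Y w) +
            (Finsupp.single (ContinuousMap.const _ y0) c' + bd ℚ 1 Y w') := by
            rw [← hw, ← hw']
        _ = _ := by abel
    | single s r =>
      have h1 : s = ContinuousMap.const _ (s (stdSimplex.vertex 0)) := smp_one_ext rfl
      have h2 := hj (s (stdSimplex.vertex 0)) y0 ⟨PathConnectedSpace.somePath _ _⟩
      unfold HH.point at h2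
      rw [HH.mk_eq_mk_iff] at h2
      obtain ⟨w, hw⟩ := h2
      refine ⟨r, r • w, ?_⟩
      rw [map_smul, hw]
      change _ = _ + r • (Finsupp.single (ContinuousMap.const _ (s (stdSimplex.vertex 0))) (1 : ℚ) -
        Finsupp.single (ContinuousMap.const _ y0) (1 : ℚ))
      rw [← h1, smul_sub, Finsupp.smul_single, Finsupp.smul_single, smul_eq_mul, mul_one]
      abel
  intro z hz
  obtain ⟨c, w, hw⟩ := key z
  refine ⟨w, ?_⟩
  have h3 : bd ℚ 0 Y (Finsupp.single (ContinuousMap.const _ y0) c) = 0 := by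
    have h4 := congrArg (bd ℚ 0 Y) hw
    rw [map_add, bd_bd, add_zero, hz] at h4
    exact h4.symm
  have h5 : c = 0 := by
    rw [bd_single, Fin.sum_univ_one] at h3
    simp only [Fin.val_zero, pow_zero, one_smul, Finsupp.smul_single, smul_eq_mul, mul_one] at h3
    exact Finsupp.single_eq_zero.1 h3
  rw [hw, h5, Finsupp.single_zero]
  exact (zero_add _).symm

theorem tc (hFPC : T_FPC) (hFV : T_FV) (hEEC : T_EEC) (hCON : T_CON) (hDI : T_DI) : T_TC := by
  intro Y _ _ y0 hACC q
  induction q using Nat.strong_induction_on with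
  | h q ih =>
    obtain _ | q := q
    · have : PathConnectedSpace (NLF Y y0) := hFPC PUnit Y (cpt y0) PUnit.unit
      exact acyc_zero hDI (NLF Y y0)
    · refine hFV PUnit Y (cpt y0) PUnit.unit (q + 1) (by omega) ih (fun z hz _ => ?_)
        (fun w hw => ?_)
      · obtain ⟨⟨e, -⟩, -⟩ := hEEC PUnit Y (cpt y0)
        have : ContractibleSpace (EE (cpt y0)) := ⟨⟨e⟩⟩
        have h1 : Acyc ℚ (q + 1) (EE (cpt y0)) := (acyc_succ_iff ℚ).2 (hCON ℚ _ q)
        exact h1 z hz
      · obtain ⟨u, hu⟩ := hACC (q + 2) w hw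
        refine ⟨0, u, map_zero _, ?_⟩
        have h0 : prC (cpt y0) PUnit.unit (q + 1 + 2) 0 = 0 := LinearMap.map_zero _
        have h1 : cbd ((cpt.{0} y0) PUnit.unit.{1}) (q + 1 + 2) u = w := hu
        have h2 := congrArg (fun v => v + cbd ((cpt.{0} y0) PUnit.unit.{1}) (q + 1 + 2) u) h0
        exact (h2.trans ((zero_add _).trans h1)).symm

theorem fg_injective {B : Type} [TopologicalSpace B] [SimplyConnectedSpace B] (b0 : B) (n : ℕ) :
    Function.Injective (Leg.fg : CS b0 (n + 1) → Smp (n + 1) B) := by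
  intro s r h
  refine Leg.eq_of_eq_at h (stdSimplex.vertex 0) ?_
  rw [BT.ext_iff']
  exact ⟨DFunLike.congr_fun h _, Subsingleton.elim _ _⟩

theorem fgC_prC {A B : Type} [TopologicalSpace A] [TopologicalSpace B] [SimplyConnectedSpace A]
    (f : C(A, B)) (a0 : A) (n : ℕ) (x : Ch ℚ n (EE f)) :
    fgC (f a0) n (prC f a0 n x) = pf ℚ n (EE.endp f) x := by
  induction x using Finsupp.induction_linear with
  | zero => simp
  | add u v hu hv => simp only [map_add, hu, hv]
  | single e r =>
    rw [prC_single, fgC_single, pf_single]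
    rfl

theorem acff (hFPC : T_FPC) (hFV : T_FV) (hEEC : T_EEC) (hHM : T_HM) (hCVS : T_CVS)
    (hDI : T_DI) : T_ACFF := by
  intro A B _ _ _ _ f a0 hf q
  obtain ⟨⟨e, he⟩, hh⟩ := hEEC A B f
  -- the end point map is a homology isomorphism
  have hpa : ∀ j, Function.Bijective (HH.map ℚ j (EE.pa f)) := by
    intro j
    rw [← he]
    have h1 : ∀ z, HH.map ℚ j e.invFun (HH.map ℚ j e.toFun z) = z := by
      intro z
      rw [← HH.map_comp, hHM ℚ _ _ _ _ e.left_inv j, HH.map_id]
    have h2 : ∀ z, HH.map ℚ j e.toFun (HH.map ℚ j e.invFun z) = z := by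
      intro z
      rw [← HH.map_comp, hHM ℚ _ _ _ _ e.right_inv j, HH.map_id]
    exact ⟨fun x y h => by rw [← h1 x, ← h1 y]; exact congrArg _ h, fun z => ⟨_, h2 z⟩⟩
  have hen : ∀ j, Function.Bijective (HH.map ℚ j (EE.endp f)) := by
    intro j
    have h3 : ∀ z, HH.map ℚ j (EE.endp f) z = HH.map ℚ j f (HH.map ℚ j (EE.pa f) z) := by
      intro z
      rw [← HH.map_comp, hHM ℚ _ _ _ _ hh j]
    have h4 : (HH.map ℚ j (EE.endp f) : HH ℚ j (EE f) → HH ℚ j B) =
        (HH.map ℚ j f) ∘ (HH.map ℚ j (EE.pa f)) := funext h3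
    rw [h4]
    exact (hf j).comp (hpa j)
  induction q using Nat.strong_induction_on with
  | h q ih =>
    obtain _ | q := q
    · have : PathConnectedSpace (F0 f a0) := hFPC A B f a0
      exact acyc_zero hDI (F0 f a0)
    · refine hFV A B f a0 (q + 1) (by omega) ih (fun z hz hw => ?_) (fun w hw => ?_)
      · obtain ⟨w, hw⟩ := hw
        have h5 : HH.map ℚ (q + 1) (EE.endp f) (HH.mk ℚ (q + 1) (EE f) ⟨z, hz⟩) = 0 := by
          rw [HH.map_mk, HH.mk_eq_zero_iff]
          refine ⟨fgC (f a0) (q + 3) w, ?_⟩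
          rw [bd_fgC, hw, fgC_prC]
          rfl
        have h6 : HH.mk ℚ (q + 1) (EE f) ⟨z, hz⟩ = 0 :=
          (hen (q + 1)).1 (h5.trans (map_zero _).symm)
        rw [HH.mk_eq_zero_iff] at h6
        exact h6
      · have hc : fgC (f a0) (q + 3) w ∈ ZZ ℚ (q + 2) B := by
          rw [mem_ZZ_succ, bd_fgC, hw, map_zero]
        obtain ⟨c, hc'⟩ := (hen (q + 2)).2 (HH.mk ℚ (q + 2) B ⟨fgC (f a0) (q + 3) w, hc⟩)
        obtain ⟨x, rfl⟩ := HH.mk_surjective ℚ (q + 2) c
        rw [HH.map_mk] at hc'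
        have h7 := hc'.symm
        rw [HH.mk_eq_mk_iff] at h7
        obtain ⟨b, hb⟩ := h7
        obtain ⟨u, hu⟩ := hCVS B (f a0) (q + 3) b
        refine ⟨x.1, u, x.2, ?_⟩
        have hinj : Function.Injective (fgC (f a0) (q + 3)) :=
          Finsupp.mapDomain_injective (fg_injective (f a0) (q + 2))
        apply hinj
        rw [map_add, fgC_prC, ← bd_fgC, hu, hb]
        change _ = _ + (_ - pf ℚ (q + 3) (EE.endp f) x.1)
        abel

end Pool.Agent.H93.FB
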