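import Pool.Agent.H93.FB.Targets

/-!
# Module TOP: the maps from the parts over simplices to the fibre
-/

open Topology Set
open scoped unitInterval ContinuousMap
open Pool.Agent.H59 Pool.Agent.H64.LB

namespace Pool.Agent.H93.FB

noncomputable section

variable {A B : Type} [TopologicalSpace A] [TopologicalSpace B]

theorem BT.tr_eq {b0 : B} (x : BT b0) {z w : B} (p : Path x.1 z) (q : Path x.1 w)
    (hpq : ∀ s, p s = q s) : (⟨z, x.2.trans (Path.Homotopic.Quotient.mk p)⟩ : BT b0) =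
      ⟨w, x.2.trans (Path.Homotopic.Quotient.mk q)⟩ := by
  have hzw : z = w := by rw [← p.target, ← q.target, hpq]
  subst hzw
  have : p = q := by
    ext s
    exact hpq s
  rw [this]

theorem BT.eta' {b0 : B} (y : BT b0) (q : PQ b0 y.1) (h : y.2 = q) : y = ⟨y.1, q⟩ := by
  subst h
  rfl

theorem exH_congr {X X' : Type} [TopologicalSpace X] [TopologicalSpace X'] (f : C(A, B))
    (e : C(X, EE f)) (δ : C(X × I, B)) (h : ∀ x, δ (x, 0) = EE.endp f (e x))
    (e' : C(X', EE f)) (δ' : C(X' × I, B)) (h' : ∀ x, δ' (x, 0) = EE.endp f (e' x)) (x : X)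
    (x' : X') (u : I) (he : e x = e' x') (hδ : ∀ v, δ (x, v) = δ' (x', v)) :
    exH f e δ h (x, u) = exH f e' δ' h' (x', u) := by
  refine EE.ext' (by
    change EE.pa f (e x) = EE.pa f (e' x')
    rw [he]) (fun t => ?_)
  change (if (1 + (u : ℝ)) * t ≤ 1 then (e x).1.2 (projIcc 0 1 zero_le_one ((1 + (u : ℝ)) * t))
    else δ (x, projIcc 0 1 zero_le_one ((1 + (u : ℝ)) * t - 1))) =
    (if (1 + (u : ℝ)) * t ≤ 1 then (e' x').1.2 (projIcc 0 1 zero_le_one ((1 + (u : ℝ)) * t))
    else δ' (x', projIcc 0 1 zero_le_one ((1 + (u : ℝ)) * t - 1)))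
  rw [he, hδ]

variable (f : C(A, B)) (a0 : A) [SimplyConnectedSpace A]

/-- the class of an extension -/
theorem clf_exH {X : Type} [TopologicalSpace X] (e : C(X, EE f)) (δ : C(X × I, B))
    (h : ∀ x, δ (x, 0) = EE.endp f (e x)) (x : X) (u : I) (y : BT (f a0))
    (hy : clf f a0 (e x) = y) {b : B} (p : Path y.1 b) (hp : ∀ v : I, p v = δ (x, u * v)) :
    clf f a0 (exH f e δ h (x, u)) = ⟨b, y.2.trans (Path.Homotopic.Quotient.mk p)⟩ := by
  subst hy
  let Γ : Path (e x) (exH f e δ h (x, u)) :=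
    ⟨⟨fun v => exH f e δ h (x, u * v), by fun_prop⟩, by
      change exH f e δ h (x, u * 0) = e x
      rw [mul_zero]
      exact exH_zero f e δ h x, by
      change exH f e δ h (x, u * 1) = _
      rw [mul_one]⟩
  have h1 := (cl f a0).leg (e x) (exH f e δ h (x, u)) Γ
  refine (BT.eta' _ _ h1).trans (BT.tr_eq (clf f a0 (e x)) (Γ.map (cl f a0).cont) p (fun v => ?_))
  rw [hp]
  exact exH_endp f e δ h (x, u * v)

/-- the class does not change along a homotopy with fixed end points -/
theorem clf_const {X : Type} [TopologicalSpace X] (H : C(X × I, EE f)) (x : X)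
    (hH : ∀ v, EE.endp f (H (x, v)) = EE.endp f (H (x, 0))) (v : I) :
    clf f a0 (H (x, v)) = clf f a0 (H (x, 0)) := by
  let Γ : Path (H (x, 0)) (H (x, v)) :=
    ⟨⟨fun w => H (x, v * w), by fun_prop⟩, by
      change H (x, v * 0) = _
      rw [mul_zero], by
      change H (x, v * 1) = _
      rw [mul_one]⟩
  have h1 := (cl f a0).leg _ _ Γ
  refine (BT.eta' _ _ h1).trans ((BT.tr_eq (clf f a0 (H (x, 0))) (Γ.map (cl f a0).cont)
    (Path.refl _) (fun w => hH (v * w))).trans ?_)
  have h3 : Path.Homotopic.Quotient.mk (Path.refl (clf f a0 (H (x, 0))).1) =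
    Path.Homotopic.Quotient.refl _ := rfl
  rw [h3, Path.Homotopic.Quotient.trans_refl]
  rfl

/-- the fibre over a point of the universal cover -/
def Eb (x : BT (f a0)) : Type := {e : EE f // clf f a0 e = x}

instance (x : BT (f a0)) : TopologicalSpace (Eb f a0 x) := instTopologicalSpaceSubtype

/-- the inclusion -/
def Eb.inc (x : BT (f a0)) : C(Eb f a0 x, EE f) := ⟨Subtype.val, continuous_subtype_val⟩

theorem Eb.endp {x : BT (f a0)} (e : Eb f a0 x) : EE.endp f e.1 = x.1 := congrArg Sigma.fst e.2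

/-- homotopies of maps to a fibre -/
theorem Eb.htp {X : Type} [TopologicalSpace X] {y : BT (f a0)} (g₀ g₁ : C(X, Eb f a0 y))
    (H : C(X × I, EE f)) (h0 : ∀ x, H (x, 0) = (g₀ x).1) (h1 : ∀ x, H (x, 1) = (g₁ x).1)
    (he : ∀ x v, EE.endp f (H (x, v)) = y.1) : g₀.Homotopic g₁ := by
  have hc : ∀ x v, clf f a0 (H (x, v)) = y := by
    intro x v
    rw [clf_const f a0 H x (fun w => by rw [he, he]) v, h0]
    exact (g₀ x).2
  refine ⟨⟨⟨fun q => ⟨H (q.2, q.1), hc q.2 q.1⟩, ?_⟩, fun x => ?_, fun x => ?_⟩⟩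
  · exact (H.continuous.comp (by fun_prop)).subtype_mk _
  · exact Subtype.ext (h0 x)
  · exact Subtype.ext (h1 x)

/-! ### Transport along paths -/

/-- the constant family of paths -/
def cfam (X : Type) [TopologicalSpace X] {b b' : B} (γ : Path b b') : C(X × I, B) :=
  ⟨fun q => γ q.2, by fun_prop⟩

/-- the extension along a path, as a homotopy -/
def TX (x : BT (f a0)) {b : B} (γ : Path x.1 b) : C(Eb f a0 x × I, EE f) :=
  exH f (Eb.inc f a0 x) (cfam _ γ) (fun e => γ.source.trans (Eb.endp f a0 e).symm)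

theorem TX_cl {x y : BT (f a0)} (γ : Path x.1 y.1)
    (h : x.2.trans (Path.Homotopic.Quotient.mk γ) = y.2) (e : Eb f a0 x) :
    clf f a0 (TX f a0 x γ (e, 1)) = y := by
  have h1 := clf_exH f a0 (Eb.inc f a0 x) (cfam _ γ)
    (fun e => γ.source.trans (Eb.endp f a0 e).symm) e 1 x e.2 γ (fun v => by
      change γ v = γ (1 * v)
      rw [one_mul])
  refine Eq.trans h1 ?_
  rw [h]
  rfl

/-- transport along a path -/
def TT {x y : BT (f a0)} (γ : Path x.1 y.1) (h : x.2.trans (Path.Homotopic.Quotient.mk γ) = y.2) :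
    C(Eb f a0 x, Eb f a0 y) where
  toFun e := ⟨TX f a0 x γ (e, 1), TX_cl f a0 γ h e⟩
  continuous_toFun := ((TX f a0 x γ).continuous.comp
    (continuous_id.prodMk continuous_const)).subtype_mk _

/-- homotopic paths give homotopic transports -/
theorem TT_htp {x y : BT (f a0)} (γ γ' : Path x.1 y.1)
    (h : x.2.trans (Path.Homotopic.Quotient.mk γ) = y.2)
    (h' : x.2.trans (Path.Homotopic.Quotient.mk γ') = y.2) (hγ : γ.Homotopic γ') :
    (TT f a0 γ h).Homotopic (TT f a0 γ' h') := by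
  obtain ⟨K⟩ := hγ
  let e : C(Eb f a0 x × I, EE f) := ⟨fun q => q.1.1, by
    exact continuous_subtype_val.comp continuous_fst⟩
  let δ : C((Eb f a0 x × I) × I, B) := ⟨fun q => K (q.1.2, q.2), by fun_prop⟩
  have hδ : ∀ q, δ (q, 0) = EE.endp f (e q) := by
    intro q
    change K (q.2, 0) = _
    rw [K.source]
    exact (Eb.endp f a0 q.1).symm
  refine Eb.htp f a0 _ _ ((exH f e δ hδ).comp ⟨fun q => (q, 1), by fun_prop⟩) (fun e' => ?_)
    (fun e' => ?_) (fun e' v => ?_)
  · refine exH_congr f _ _ _ _ _ _ _ _ _ rfl (fun v => ?_)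
    change K (0, v) = γ v
    exact K.apply_zero v
  · refine exH_congr f _ _ _ _ _ _ _ _ _ rfl (fun v => ?_)
    change K (1, v) = γ' v
    exact K.apply_one v
  · refine (exH_endp f e δ hδ ((e', v), 1)).trans ?_
    change K (v, 1) = _
    exact K.target v

/-- transport along a constant path -/
theorem TT_const {x : BT (f a0)} (γ : Path x.1 x.1)
    (h : x.2.trans (Path.Homotopic.Quotient.mk γ) = x.2) (hγ : ∀ t, γ t = x.1) :
    (TT f a0 γ h).Homotopic (ContinuousMap.id _) := by
  refine ContinuousMap.Homotopic.symm ?_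
  refine Eb.htp f a0 _ _ (TX f a0 x γ) (fun e' => ?_) (fun e' => rfl) (fun e' v => ?_)
  · exact exH_zero f _ _ _ e'
  · exact (exH_endp f _ _ _ (e', v)).trans (hγ v)

/-- the two step extension along `λ` cut at time `c` -/
theorem TT_split {x y z : BT (f a0)} (γ : Path x.1 y.1) (γ' : Path y.1 z.1)
    (h : x.2.trans (Path.Homotopic.Quotient.mk γ) = y.2)
    (h' : y.2.trans (Path.Homotopic.Quotient.mk γ') = z.2)
    (h'' : x.2.trans (Path.Homotopic.Quotient.mk (γ.trans γ')) = z.2) :
    ((TT f a0 γ' h').comp (TT f a0 γ h)).Homotopic (TT f a0 (γ.trans γ') h'') := by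
  have hz : z.2.trans (Path.Homotopic.Quotient.mk (Path.refl z.1)) = z.2 := by
    have : Path.Homotopic.Quotient.mk (Path.refl z.1) = Path.Homotopic.Quotient.refl _ := rfl
    rw [this, Path.Homotopic.Quotient.trans_refl]
  refine ContinuousMap.Homotopic.trans (g := (TT f a0 (Path.refl z.1) hz).comp
    (TT f a0 (γ.trans γ') h'')) ?_ ?_
  · let l := γ.trans γ'
    -- the cut point
    let c : I → I := fun v => ⟨(1 + (v : ℝ)) / 2, by
      constructor
      · have := v.2.1; linarith
      · have := v.2.2; linarith⟩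
    have hc : Continuous c := by
      refine Continuous.subtype_mk ?_ _
      fun_prop
    let e : C(Eb f a0 x × I, EE f) := ⟨fun q => q.1.1, by
      exact continuous_subtype_val.comp continuous_fst⟩
    let δ : C((Eb f a0 x × I) × I, B) := ⟨fun q => l (c q.1.2 * q.2), by fun_prop⟩
    have hδ : ∀ q, δ (q, 0) = EE.endp f (e q) := by
      intro q
      change l (c q.2 * 0) = _
      rw [mul_zero, l.source]
      exact (Eb.endp f a0 q.1).symm
    let e2 : C(Eb f a0 x × I, EE f) := (exH f e δ hδ).comp ⟨fun q => (q, 1), by fun_prop⟩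
    -- the second piece : `c + (1 - c) u`
    let w : I → I → I := fun v u => ⟨(c v : ℝ) + (1 - c v) * u, by
      have h1 := (c v).2.1
      have h2 := (c v).2.2
      have h3 := u.2.1
      have h4 := u.2.2
      constructor
      · nlinarith
      · nlinarith⟩
    have hw : Continuous fun q : I × I => w q.1 q.2 := by
      refine Continuous.subtype_mk ?_ _
      fun_prop
    let δ2 : C((Eb f a0 x × I) × I, B) := ⟨fun q => l (w q.1.2 q.2), by
      exact l.continuous.comp (hw.comp (by fun_prop : Continuous fun q : (Eb f a0 x × I) × I =>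
        (q.1.2, q.2)))⟩
    have hδ2 : ∀ q, δ2 (q, 0) = EE.endp f (e2 q) := by
      intro q
      change l (w q.2 0) = EE.endp f (exH f e δ hδ (q, 1))
      rw [exH_endp]
      change l (w q.2 0) = l (c q.2 * 1)
      congr 1
      apply Subtype.ext
      change (c q.2 : ℝ) + (1 - c q.2) * ((0 : I) : ℝ) = (c q.2 : ℝ) * ((1 : I) : ℝ)
      simp
    refine Eb.htp f a0 _ _ ((exH f e2 δ2 hδ2).comp ⟨fun q => (q, 1), by fun_prop⟩) (fun e' => ?_)
      (fun e' => ?_) (fun e' v => ?_)
    · refine exH_congr f _ _ _ _ _ _ _ _ _ ?_ (fun v => ?_)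
      · refine exH_congr f _ _ _ _ _ _ _ _ _ rfl (fun v => ?_)
        change (γ.trans γ') (c 0 * v) = γ v
        rw [Path.trans_apply]
        have h1 : ((c 0 * v : I) : ℝ) = v / 2 := by
          change ((1 + ((0 : I) : ℝ)) / 2) * (v : ℝ) = v / 2
          simp only [Icc.coe_zero, add_zero]
          ring
        rw [dif_pos (by rw [h1]; have := v.2.2; linarith)]
        congr 1
        apply Subtype.ext
        change 2 * ((c 0 * v : I) : ℝ) = v
        rw [h1]
        ring
      · change (γ.trans γ') (w 0 v) = γ' v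
        rw [Path.trans_apply]
        have h1 : ((w 0 v : I) : ℝ) = 1 / 2 + v / 2 := by
          change ((1 + ((0 : I) : ℝ)) / 2) + (1 - (1 + ((0 : I) : ℝ)) / 2) * (v : ℝ) = 1 / 2 + v / 2
          simp only [Icc.coe_zero, add_zero]
          ring
        split_ifs with h2
        · have h3 : v = 0 := by
            apply Subtype.ext
            rw [h1] at h2
            have := v.2.1
            change (v : ℝ) = 0
            linarith
          subst h3
          rw [γ'.source]
          convert γ.target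
          rw [h1]
          simp
        · congr 1
          apply Subtype.ext
          change 2 * ((w 0 v : I) : ℝ) - 1 = v
          rw [h1]
          ring
    · refine exH_congr f _ _ _ _ _ _ _ _ _ ?_ (fun v => ?_)
      · refine exH_congr f _ _ _ _ _ _ _ _ _ rfl (fun v => ?_)
        change (γ.trans γ') (c 1 * v) = (γ.trans γ') v
        congr 1
        apply Subtype.ext
        change ((1 + ((1 : I) : ℝ)) / 2) * (v : ℝ) = v
        simp only [Icc.coe_one]
        ring
      · change (γ.trans γ') (w 1 v) = z.1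
        have h1 : w 1 v = 1 := by
          apply Subtype.ext
          change ((1 + ((1 : I) : ℝ)) / 2) + (1 - (1 + ((1 : I) : ℝ)) / 2) * (v : ℝ) = ((1 : I) : ℝ)
          simp only [Icc.coe_one]
          ring
        rw [h1]
        exact (γ.trans γ').target
    · refine (exH_endp f e2 δ2 hδ2 ((e', v), 1)).trans ?_
      change (γ.trans γ') (w v 1) = _
      have h1 : w v 1 = 1 := by
        apply Subtype.ext
        change (c v : ℝ) + (1 - (c v : ℝ)) * ((1 : I) : ℝ) = ((1 : I) : ℝ)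
        simp only [Icc.coe_one]
        ring
      rw [h1]
      exact (γ.trans γ').target
  · have := TT_const f a0 (x := z) (Path.refl z.1) hz (fun _ => rfl)
    exact ContinuousMap.Homotopic.comp this (ContinuousMap.Homotopic.refl _)

/-- transport along a null-homotopic loop -/
theorem TT_loop {x y : BT (f a0)} (hxy : x = y) (γ : Path x.1 y.1)
    (h : x.2.trans (Path.Homotopic.Quotient.mk γ) = y.2) (g : C(Eb f a0 x, Eb f a0 y))
    (hg : ∀ e, (g e).1 = e.1) : (TT f a0 γ h).Homotopic g := by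
  subst hxy
  have h1 : Path.Homotopic.Quotient.mk γ = Path.Homotopic.Quotient.mk (Path.refl x.1) := by
    have h2 : x.2.symm.trans (x.2.trans (Path.Homotopic.Quotient.mk γ)) = x.2.symm.trans x.2 := by
      rw [h]
    rw [← Path.Homotopic.Quotient.trans_assoc, Path.Homotopic.Quotient.symm_trans,
      Path.Homotopic.Quotient.refl_trans] at h2
    exact h2
  have h3 : γ.Homotopic (Path.refl x.1) := Path.Homotopic.Quotient.exact h1
  have h4 : x.2.trans (Path.Homotopic.Quotient.mk (Path.refl x.1)) = x.2 := by rw [← h1, h]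
  have h5 : g = ContinuousMap.id _ := by
    ext e
    exact Subtype.ext (hg e)
  rw [h5]
  exact (TT_htp f a0 γ (Path.refl x.1) h h4 h3).trans (TT_const f a0 _ h4 (fun _ => rfl))

/-! ### Sliding along segments in a simplex -/

/-- the segment from `t` to `t'` in a simplex -/
def sgm {m : ℕ} : C((Dl m × Dl m) × I, Dl m) :=
  ⟨fun q => ⟨fun i => (1 - (q.2 : ℝ)) * q.1.1 i + q.2 * q.1.2 i, by
    have h1 := q.2.2.1
    have h2 := q.2.2.2
    refine ⟨fun i => ?_, ?_⟩
    · have h3 := q.1.1.2.1 i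
      have h4 := q.1.2.2.1 i
      have h5 : (0 : ℝ) ≤ 1 - (q.2 : ℝ) := by linarith
      exact add_nonneg (mul_nonneg h5 h3) (mul_nonneg h1 h4)
    · rw [Finset.sum_add_distrib, ← Finset.mul_sum, ← Finset.mul_sum]
      have h3 := q.1.1.2.2
      have h4 := q.1.2.2.2
      change (1 - (q.2 : ℝ)) * ∑ i, q.1.1.1 i + q.2 * ∑ i, q.1.2.1 i = 1
      rw [h3, h4]
      ring⟩, by
    refine Continuous.subtype_mk (continuous_pi fun i => ?_) _
    have c1 : Continuous fun q : (Dl m × Dl m) × I => q.1.1 i :=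
      (continuous_apply i).comp (continuous_subtype_val.comp (continuous_fst.comp continuous_fst))
    have c2 : Continuous fun q : (Dl m × Dl m) × I => q.1.2 i :=
      (continuous_apply i).comp (continuous_subtype_val.comp (continuous_snd.comp continuous_fst))
    have c3 : Continuous fun q : (Dl m × Dl m) × I => (q.2 : ℝ) :=
      continuous_subtype_val.comp continuous_snd
    exact ((continuous_const.sub c3).mul c1).add (c3.mul c2)⟩

theorem sgm_zero {m : ℕ} (t t' : Dl m) : sgm ((t, t'), 0) = t := by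
  apply Subtype.ext
  funext i
  change (1 - ((0 : I) : ℝ)) * t i + ((0 : I) : ℝ) * t' i = t i
  simp

theorem sgm_one {m : ℕ} (t t' : Dl m) : sgm ((t, t'), 1) = t' := by
  apply Subtype.ext
  funext i
  change (1 - ((1 : I) : ℝ)) * t i + ((1 : I) : ℝ) * t' i = t' i
  simp

theorem sgm_self {m : ℕ} (t : Dl m) (u : I) : sgm ((t, t), u) = t := by
  apply Subtype.ext
  funext i
  change (1 - (u : ℝ)) * t i + (u : ℝ) * t i = t i
  ring

theorem cf_sgm {m : ℕ} (i : Fin (m + 1)) (t t' : Dl m) (u : I) :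
    cf i (sgm ((t, t'), u)) = sgm ((cf i t, cf i t'), u) := by
  apply Subtype.ext
  funext j
  change FunOnFinite.linearMap ℝ ℝ i.succAbove (sgm ((t, t'), u)).1 j =
    (1 - (u : ℝ)) * FunOnFinite.linearMap ℝ ℝ i.succAbove t.1 j +
      u * FunOnFinite.linearMap ℝ ℝ i.succAbove t'.1 j
  have : (sgm ((t, t'), u)).1 = (1 - (u : ℝ)) • t.1 + (u : ℝ) • t'.1 := rfl
  rw [this, map_add, map_smul, map_smul]
  rfl

variable {n : ℕ} (s : CS (f a0) (n + 1))

/-- the projection to the total space -/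
def prE : C(Es f a0 s, EE f) := ⟨fun x => x.1.1, continuous_fst.comp continuous_subtype_val⟩

/-- the projection to the simplex -/
def prD : C(Es f a0 s, Dl (n + 1)) := ⟨fun x => x.1.2, continuous_snd.comp continuous_subtype_val⟩

theorem Es.endp (x : Es f a0 s) : EE.endp f x.1.1 = s.fg x.1.2 := congrArg Sigma.fst x.2

/-- the family of segments to `t0` -/
def slD (t0 : Dl (n + 1)) : C(Es f a0 s × I, B) :=
  ⟨fun q => s.fg (sgm ((prD f a0 s q.1, t0), q.2)), by fun_prop⟩

theorem slD_zero (t0 : Dl (n + 1)) (x : Es f a0 s) :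
    slD f a0 s t0 (x, 0) = EE.endp f (prE f a0 s x) := by
  change s.fg (sgm ((x.1.2, t0), 0)) = EE.endp f x.1.1
  rw [sgm_zero, Es.endp]

/-- sliding to `t0` -/
def SL (t0 : Dl (n + 1)) : C(Es f a0 s × I, EE f) :=
  exH f (prE f a0 s) (slD f a0 s t0) (slD_zero f a0 s t0)

theorem SL_cl (t0 : Dl (n + 1)) (x : Es f a0 s) (u : I) :
    clf f a0 (SL f a0 s t0 (x, u)) = s.toFun (sgm ((x.1.2, t0), u)) := by
  let P : Path x.1.2 (sgm ((x.1.2, t0), u)) :=
    ⟨⟨fun v => sgm ((x.1.2, t0), u * v), by fun_prop⟩, by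
      change sgm ((x.1.2, t0), u * 0) = _
      rw [mul_zero, sgm_zero], by
      change sgm ((x.1.2, t0), u * 1) = _
      rw [mul_one]⟩
  have h1 := clf_exH f a0 (prE f a0 s) (slD f a0 s t0) (slD_zero f a0 s t0) x u
    (s.toFun x.1.2) x.2 (P.map s.cont) (fun v => rfl)
  exact h1.trans (BT.eta' _ _ (s.leg _ _ P)).symm

theorem SL_cl_one (t0 : Dl (n + 1)) (x : Es f a0 s) :
    clf f a0 (SL f a0 s t0 (x, 1)) = s.toFun t0 := by
  rw [SL_cl, sgm_one]

/-- the projection to the fibre over `t0` -/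
def rho (t0 : Dl (n + 1)) : C(Es f a0 s, Eb f a0 (s.toFun t0)) where
  toFun x := ⟨SL f a0 s t0 (x, 1), SL_cl_one f a0 s t0 x⟩
  continuous_toFun := ((SL f a0 s t0).continuous.comp
    (continuous_id.prodMk continuous_const)).subtype_mk _

/-- the inclusion of the fibre over `t0` -/
def iota (t0 : Dl (n + 1)) : C(Eb f a0 (s.toFun t0), Es f a0 s) where
  toFun e := ⟨(e.1, t0), e.2⟩
  continuous_toFun := (continuous_subtype_val.prodMk continuous_const).subtype_mk _

theorem iota_rho (t0 : Dl (n + 1)) :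
    ((iota f a0 s t0).comp (rho f a0 s t0)).Homotopic (ContinuousMap.id _) := by
  refine ContinuousMap.Homotopic.symm ⟨⟨⟨fun q => ⟨(SL f a0 s t0 (q.2, q.1),
    sgm ((prD f a0 s q.2, t0), q.1)), SL_cl f a0 s t0 q.2 q.1⟩, ?_⟩, fun x => ?_, fun x => ?_⟩⟩
  · refine Continuous.subtype_mk ?_ _
    fun_prop
  · apply Subtype.ext
    apply Prod.ext
    · exact exH_zero f _ _ _ x
    · exact sgm_zero _ _
  · apply Subtype.ext
    apply Prod.ext
    · rfl
    · exact sgm_one _ _

/-- the image of the segment from `t0` to `t1` -/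
def sgB (t0 t1 : Dl (n + 1)) : Path (s.toFun t0).1 (s.toFun t1).1 :=
  (⟨⟨fun v => sgm ((t0, t1), v), by fun_prop⟩, sgm_zero _ _, sgm_one _ _⟩ : Path t0 t1).map s.cont

theorem sgB_apply (t0 t1 : Dl (n + 1)) (v : I) : sgB f a0 s t0 t1 v = s.fg (sgm ((t0, t1), v)) :=
  rfl

theorem sgB_cl (t0 t1 : Dl (n + 1)) :
    (s.toFun t0).2.trans (Path.Homotopic.Quotient.mk (sgB f a0 s t0 t1)) = (s.toFun t1).2 :=
  (s.leg _ _ _).symm

theorem rho_move (t0 t1 : Dl (n + 1)) :
    ((TT f a0 (sgB f a0 s t0 t1) (sgB_cl f a0 s t0 t1)).comp (rho f a0 s t0)).Homotopic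
      (rho f a0 s t1) := by
  have hr : (s.toFun t1).2.trans (Path.Homotopic.Quotient.mk (Path.refl (s.toFun t1).1)) =
      (s.toFun t1).2 := Path.Homotopic.Quotient.trans_refl _
  refine ContinuousMap.Homotopic.trans
    (g := (TT f a0 (Path.refl (s.toFun t1).1) hr).comp (rho f a0 s t1)) ?_ ?_
  · let e : C(Es f a0 s × I, EE f) := ⟨fun q => prE f a0 s q.1, by fun_prop⟩
    let δ : C((Es f a0 s × I) × I, B) :=
      ⟨fun q => s.fg (sgm ((prD f a0 s q.1.1, sgm ((t0, t1), q.1.2)), q.2)), by fun_prop⟩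
    have hδ : ∀ q, δ (q, 0) = EE.endp f (e q) := by
      intro q
      change s.fg (sgm ((q.1.1.2, _), 0)) = EE.endp f q.1.1.1
      rw [sgm_zero, Es.endp]
    let e2 : C(Es f a0 s × I, EE f) := (exH f e δ hδ).comp ⟨fun q => (q, 1), by fun_prop⟩
    let δ2 : C((Es f a0 s × I) × I, B) :=
      ⟨fun q => s.fg (sgm ((sgm ((t0, t1), q.1.2), t1), q.2)), by fun_prop⟩
    have hδ2 : ∀ q, δ2 (q, 0) = EE.endp f (e2 q) := by
      intro q
      change s.fg (sgm ((sgm ((t0, t1), q.2), t1), 0)) = EE.endp f (exH f e δ hδ (q, 1))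
      rw [exH_endp]
      change _ = s.fg (sgm ((q.1.1.2, sgm ((t0, t1), q.2)), 1))
      rw [sgm_zero, sgm_one]
    refine Eb.htp f a0 _ _ ((exH f e2 δ2 hδ2).comp ⟨fun q => (q, 1), by fun_prop⟩) (fun x => ?_)
      (fun x => ?_) (fun x v => ?_)
    · refine exH_congr f _ _ _ _ _ _ _ _ _ ?_ (fun v => ?_)
      · refine exH_congr f _ _ _ _ _ _ _ _ _ rfl (fun v => ?_)
        change s.fg (sgm ((x.1.2, sgm ((t0, t1), 0)), v)) = s.fg (sgm ((x.1.2, t0), v))
        rw [sgm_zero]
      · change s.fg (sgm ((sgm ((t0, t1), 0), t1), v)) = s.fg (sgm ((t0, t1), v))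
        rw [sgm_zero]
    · refine exH_congr f _ _ _ _ _ _ _ _ _ ?_ (fun v => ?_)
      · refine exH_congr f _ _ _ _ _ _ _ _ _ rfl (fun v => ?_)
        change s.fg (sgm ((x.1.2, sgm ((t0, t1), 1)), v)) = s.fg (sgm ((x.1.2, t1), v))
        rw [sgm_one]
      · change s.fg (sgm ((sgm ((t0, t1), 1), t1), v)) = s.fg t1
        rw [sgm_one, sgm_self]
    · refine (exH_endp f e2 δ2 hδ2 ((x, v), 1)).trans ?_
      change s.fg (sgm ((sgm ((t0, t1), v), t1), 1)) = s.fg t1
      rw [sgm_one]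
  · have := TT_const f a0 (x := s.toFun t1) (Path.refl _) hr (fun _ => rfl)
    exact ContinuousMap.Homotopic.comp this (ContinuousMap.Homotopic.refl _)

/-- a path is valid if it represents the inverse of the class -/
def Val (t0 : Dl (n + 1)) (γ : Path (s.toFun t0).1 (BT.one (f a0)).1) : Prop :=
  (s.toFun t0).2.trans (Path.Homotopic.Quotient.mk γ) = (BT.one (f a0)).2

/-- the map to the fibre given by a vertex and a path -/
def rt (t0 : Dl (n + 1)) (γ : Path (s.toFun t0).1 (BT.one (f a0)).1) (h : Val f a0 s t0 γ) :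
    C(Es f a0 s, Eb f a0 (BT.one (f a0))) :=
  (TT f a0 γ h).comp (rho f a0 s t0)

theorem rt_move (t0 t1 : Dl (n + 1)) (γ0 : Path (s.toFun t0).1 (BT.one (f a0)).1)
    (h0 : Val f a0 s t0 γ0) (γ1 : Path (s.toFun t1).1 (BT.one (f a0)).1)
    (h1 : Val f a0 s t1 γ1) : (rt f a0 s t0 γ0 h0).Homotopic (rt f a0 s t1 γ1 h1) := by
  have hc : (s.toFun t0).2.trans (Path.Homotopic.Quotient.mk ((sgB f a0 s t0 t1).trans γ1)) =
      (BT.one (f a0)).2 := by
    rw [Path.Homotopic.Quotient.mk_trans, ← Path.Homotopic.Quotient.trans_assoc, sgB_cl]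
    exact h1
  have hh : γ0.Homotopic ((sgB f a0 s t0 t1).trans γ1) := by
    apply Path.Homotopic.Quotient.exact
    have h2 : (s.toFun t0).2.symm.trans ((s.toFun t0).2.trans (Path.Homotopic.Quotient.mk γ0)) =
        (s.toFun t0).2.symm.trans ((s.toFun t0).2.trans
          (Path.Homotopic.Quotient.mk ((sgB f a0 s t0 t1).trans γ1))) := by
      rw [hc]
      exact congrArg _ h0
    rw [← Path.Homotopic.Quotient.trans_assoc, ← Path.Homotopic.Quotient.trans_assoc,
      Path.Homotopic.Quotient.symm_trans, Path.Homotopic.Quotient.refl_trans,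
      Path.Homotopic.Quotient.refl_trans] at h2
    exact h2
  have a1 : (rt f a0 s t0 γ0 h0).Homotopic
      ((TT f a0 ((sgB f a0 s t0 t1).trans γ1) hc).comp (rho f a0 s t0)) :=
    ContinuousMap.Homotopic.comp (TT_htp f a0 _ _ h0 hc hh) (ContinuousMap.Homotopic.refl _)
  have a2 : ((TT f a0 ((sgB f a0 s t0 t1).trans γ1) hc).comp (rho f a0 s t0)).Homotopic
      (((TT f a0 γ1 h1).comp (TT f a0 (sgB f a0 s t0 t1) (sgB_cl f a0 s t0 t1))).comp
        (rho f a0 s t0)) :=
    ContinuousMap.Homotopic.comp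
      (TT_split f a0 (sgB f a0 s t0 t1) γ1 (sgB_cl f a0 s t0 t1) h1 hc).symm
      (ContinuousMap.Homotopic.refl _)
  have a3 : ((TT f a0 γ1 h1).comp ((TT f a0 (sgB f a0 s t0 t1) (sgB_cl f a0 s t0 t1)).comp
        (rho f a0 s t0))).Homotopic ((TT f a0 γ1 h1).comp (rho f a0 s t1)) :=
    ContinuousMap.Homotopic.comp (ContinuousMap.Homotopic.refl _) (rho_move f a0 s t0 t1)
  exact (a1.trans a2).trans a3

theorem exists_val (t0 : Dl (n + 1)) :
    ∃ γ : Path (s.toFun t0).1 (BT.one (f a0)).1, Val f a0 s t0 γ := by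
  obtain ⟨γ, hγ⟩ := Path.Homotopic.Quotient.mk_surjective (s.toFun t0).2.symm
  refine ⟨γ, ?_⟩
  change (s.toFun t0).2.trans (Path.Homotopic.Quotient.mk γ) = _
  rw [hγ, Path.Homotopic.Quotient.trans_symm]
  rfl

end

theorem top : T_TOP := by
  intro A B _ _ _ f a0
  choose γ hγ using fun (n : ℕ) (s : CS (f a0) (n + 1)) (t : Dl (n + 1)) => exists_val f a0 s t
  let v0 : ∀ n : ℕ, Dl (n + 1) := fun n => stdSimplex.vertex 0
  refine ⟨⟨fun {n} s => rt f a0 s (v0 n) (γ n s (v0 n)) (hγ n s (v0 n)), fun {n} s => ?_,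
    fun {n} s i => ?_, fun {n} s h => ?_⟩⟩
  · -- domination
    have hγ' := hγ n s (v0 n)
    have hs : (BT.one (f a0)).2.trans (Path.Homotopic.Quotient.mk (γ n s (v0 n)).symm) =
        (s.toFun (v0 n)).2 := by
      have h1 : (BT.one (f a0)).2.trans (Path.Homotopic.Quotient.mk (γ n s (v0 n)).symm) =
        ((s.toFun (v0 n)).2.trans (Path.Homotopic.Quotient.mk (γ n s (v0 n)))).trans
          (Path.Homotopic.Quotient.mk (γ n s (v0 n)).symm) := by rw [hγ']
      rw [h1, Path.Homotopic.Quotient.trans_assoc, Path.Homotopic.Quotient.mk_symm,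
        Path.Homotopic.Quotient.trans_symm, Path.Homotopic.Quotient.trans_refl]
    have hc : (s.toFun (v0 n)).2.trans (Path.Homotopic.Quotient.mk
        ((γ n s (v0 n)).trans (γ n s (v0 n)).symm)) = (s.toFun (v0 n)).2 := by
      rw [Path.Homotopic.Quotient.mk_trans, Path.Homotopic.Quotient.mk_symm,
        Path.Homotopic.Quotient.trans_symm, Path.Homotopic.Quotient.trans_refl]
    refine ⟨(iota f a0 s (v0 n)).comp (TT f a0 (γ n s (v0 n)).symm hs), ?_⟩
    have a1 : (((TT f a0 (γ n s (v0 n)).symm hs).comp (TT f a0 (γ n s (v0 n)) hγ')).comp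
        (rho f a0 s (v0 n))).Homotopic
        ((TT f a0 ((γ n s (v0 n)).trans (γ n s (v0 n)).symm) hc).comp (rho f a0 s (v0 n))) :=
      ContinuousMap.Homotopic.comp (TT_split f a0 _ _ hγ' hs hc) (ContinuousMap.Homotopic.refl _)
    have a2 : ((TT f a0 ((γ n s (v0 n)).trans (γ n s (v0 n)).symm) hc).comp
        (rho f a0 s (v0 n))).Homotopic ((ContinuousMap.id _).comp (rho f a0 s (v0 n))) :=
      ContinuousMap.Homotopic.comp (TT_loop f a0 rfl _ hc (ContinuousMap.id _) (fun _ => rfl))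
        (ContinuousMap.Homotopic.refl _)
    have a3 := ContinuousMap.Homotopic.comp
      (ContinuousMap.Homotopic.refl (iota f a0 s (v0 n))) (a1.trans a2)
    exact a3.trans (iota_rho f a0 s (v0 n))
  · -- faces
    have h1 := rt_move f a0 s (v0 (n + 1)) (cf i (v0 n)) (γ (n + 1) s (v0 (n + 1)))
      (hγ (n + 1) s (v0 (n + 1))) (γ n (cfc s i) (v0 n)) (hγ n (cfc s i) (v0 n))
    have h2 := ContinuousMap.Homotopic.comp h1 (ContinuousMap.Homotopic.refl (fi f a0 s i))
    have h3 : (rho f a0 s (cf i (v0 n))).comp (fi f a0 s i) = rho f a0 (cfc s i) (v0 n) := by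
      ext x
      apply Subtype.ext
      refine exH_congr f _ _ _ _ _ _ _ _ _ rfl (fun v => ?_)
      change s.fg (sgm ((cf i x.1.2, cf i (v0 n)), v)) = s.fg (cf i (sgm ((x.1.2, v0 n), v)))
      rw [cf_sgm]
    have h4 : (rt f a0 s (cf i (v0 n)) (γ n (cfc s i) (v0 n)) (hγ n (cfc s i) (v0 n))).comp
        (fi f a0 s i) = rt f a0 (cfc s i) (v0 n) (γ n (cfc s i) (v0 n)) (hγ n (cfc s i) (v0 n)) := by
      have h5 := congrArg (fun g => (TT f a0 (γ n (cfc s i) (v0 n))
        (hγ n (cfc s i) (v0 n))).comp g) h3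
      exact h5
    rw [h4] at h2
    exact h2
  · -- constant simplices
    let g0 : C(Es f a0 s, Eb f a0 (s.toFun (v0 n))) :=
      ⟨fun x => ⟨x.1.1, (x.2.trans (h _)).trans (h _).symm⟩,
        (continuous_fst.comp continuous_subtype_val).subtype_mk _⟩
    let g1 : C(Eb f a0 (s.toFun (v0 n)), Eb f a0 (BT.one (f a0))) :=
      ⟨fun e => ⟨e.1, e.2.trans (h _)⟩, continuous_subtype_val.subtype_mk _⟩
    have a1 : (rho f a0 s (v0 n)).Homotopic g0 := by
      refine ContinuousMap.Homotopic.symm ?_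
      refine Eb.htp f a0 _ _ (SL f a0 s (v0 n)) (fun x => exH_zero f _ _ _ x) (fun x => rfl)
        (fun x v => ?_)
      have h5 := congrArg Sigma.fst (SL_cl f a0 s (v0 n) x v)
      refine Eq.trans h5 ?_
      rw [h, h]
    have a2 := TT_loop f a0 (h (v0 n)) (γ n s (v0 n)) (hγ n s (v0 n)) g1 (fun _ => rfl)
    exact ContinuousMap.Homotopic.comp a2 a1

end Pool.Agent.H93.FB
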