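import Pool.Agent.H93.FB.Asm
import Pool.Agent.H93.FB.Top
import Pool.Agent.H64.FB.CEN
import Pool.Agent.H64.FB.HU1
import Pool.Agent.H56.FB.COV
import Pool.Agent.H56.FB.CUR
import Pool.Agent.H56.FB.FHC
import Pool.Agent.H73.FB.EX
import Pool.Agent.H73.FB.FPC
import Pool.Agent.H92.LB.Cv
import Pool.Agent.H89.FB.CVP
import Pool.Agent.H89.FB.CVL
import Pool.Agent.H97.LB.ACE
import Pool.Agent.H97.LB.VEE
import Pool.Agent.H97.LB.VEZ
import Pool.Agent.H97.LB.FV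
import Pool.Agent.H4.FB.PHI
import Pool.Agent.H4.FB.DH
import Pool.Agent.H4.FB.THE
import Pool.Agent.H90.FB.EEC
import Pool.Agent.H48.SP.PF
import Pool.Agent.H52.LB.Hi
import Pool.Agent.H70.LB.HM

/-!
# The rational Whitehead theorem, kernel part (MP_2059f1_ag, block F)

A map between simply connected spaces which induces isomorphisms of rational homology has torsion
kernel on homotopy groups.
-/

open Pool.Agent.H64.LB Pool.Agent.H64.FB

namespace Pool.Agent.H93.FB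

theorem hi' : T_HI := Pool.Agent.H52.LB.hi
theorem hm' : T_HM := Pool.Agent.H70.LB.hm hi'
theorem di' : T_DI := Pool.Agent.H70.LB.di
theorem con' : T_CON := Pool.Agent.H70.LB.con hm' di'

theorem fv' : T_FV :=
  Pool.Agent.H97.LB.fv top (Pool.Agent.H97.LB.ace hi') Pool.Agent.H4.FB.phi Pool.Agent.H4.FB.dh
    (Pool.Agent.H4.FB.the hm') (Pool.Agent.H97.LB.vee_main hm') (Pool.Agent.H97.LB.vez hm' di')

theorem cov' : T_COV :=
  Pool.Agent.H56.FB.COV.cov Pool.Agent.H64.FB.hu1 Pool.Agent.H64.FB.cen Pool.Agent.H92.LB.cvk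
    Pool.Agent.H92.LB.cvs (Pool.Agent.H89.FB.cvp Pool.Agent.H89.FB.cvl)

theorem fpc' : T_FPC := Pool.Agent.H73.FB.fpc Pool.Agent.H92.LB.stf

theorem rw' : Pool.Agent.H93.SPB.T_RW :=
  rw_of Pool.Agent.H64.FB.hu1 Pool.Agent.H64.FB.cen cov'
    (tc fpc' fv' Pool.Agent.H90.FB.eec con' di') fpc'
    (Pool.Agent.H56.FB.FHC.fhc Pool.Agent.H92.LB.stf)
    (Pool.Agent.H56.FB.CUR.cur Pool.Agent.H92.LB.stf)
    (acff fpc' fv' Pool.Agent.H90.FB.eec hm' Pool.Agent.H92.LB.cvs di')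
    (Pool.Agent.H73.FB.ex Pool.Agent.H92.LB.stf) Pool.Agent.H48.SP.PF.pf

end Pool.Agent.H93.FB
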