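import Pool.Agent.H93.FB.Defs
import Pool.Agent.H64.FB.Targets

/-!
# Fibration lemma: targets (MP_2059f1_ag, block 1, fibre part)
-/

open Topology Set
open scoped unitInterval ContinuousMap
open Pool.Agent.H59 Pool.Agent.H64.LB

namespace Pool.Agent.H93.FB

noncomputable section

variable {A B : Type} [TopologicalSpace A] [TopologicalSpace B]

/-! ### Extension of paths -/

/-- the reparametrised extension: `t ↦ g ((1+s) t)` for `(1+s) t ≤ 1`, `δ ((1+s) t - 1)` after -/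
def exF {X : Type} [TopologicalSpace X] (f : C(A, B)) (e : C(X, EE f)) (δ : C(X × I, B))
    (h : ∀ x, δ (x, 0) = EE.endp f (e x)) : C((X × I) × I, B) where
  toFun p := if (1 + (p.1.2 : ℝ)) * p.2 ≤ 1 then
      (e p.1.1).1.2 (projIcc 0 1 zero_le_one ((1 + (p.1.2 : ℝ)) * p.2))
    else δ (p.1.1, projIcc 0 1 zero_le_one ((1 + (p.1.2 : ℝ)) * p.2 - 1))
  continuous_toFun := by
    refine Continuous.if_le ?_ ?_ (by fun_prop) continuous_const ?_
    · have h1 : Continuous fun p : (X × I) × I =>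
          (e p.1.1, projIcc (0 : ℝ) 1 zero_le_one ((1 + (p.1.2 : ℝ)) * p.2)) :=
        (e.continuous.comp (by fun_prop)).prodMk (continuous_projIcc.comp (by fun_prop))
      exact (EE.ev f).continuous.comp h1
    · refine δ.continuous.comp ((by fun_prop : Continuous fun p : (X × I) × I => p.1.1).prodMk ?_)
      exact continuous_projIcc.comp (by fun_prop)
    · intro p hp
      rw [hp, projIcc_right, sub_self, projIcc_left]
      exact (h p.1.1).symm

/-- extension of a family of points of `EE f` by paths `δ x` starting at the end point; at time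
`s` the path `δ x` is followed up to `s` -/
def exH {X : Type} [TopologicalSpace X] (f : C(A, B)) (e : C(X, EE f)) (δ : C(X × I, B))
    (h : ∀ x, δ (x, 0) = EE.endp f (e x)) : C(X × I, EE f) :=
  EE.fam ⟨fun p => EE.pa f (e p.1), by fun_prop⟩ (exF f e δ h) (by
    intro p
    change (if (1 + (p.2 : ℝ)) * ((0 : I) : ℝ) ≤ 1 then _ else _) = _
    rw [if_pos (by simp)]
    have h1 : (1 + (p.2 : ℝ)) * ((0 : I) : ℝ) = 0 := by simp
    rw [h1, projIcc_left]
    exact (e p.1).2)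

theorem exH_zero {X : Type} [TopologicalSpace X] (f : C(A, B)) (e : C(X, EE f)) (δ : C(X × I, B))
    (h : ∀ x, δ (x, 0) = EE.endp f (e x)) (x : X) : exH f e δ h (x, 0) = e x := by
  refine EE.ext' rfl (fun t => ?_)
  change (if (1 + ((0 : I) : ℝ)) * (t : ℝ) ≤ 1 then _ else _) = _
  have h1 : (1 + ((0 : I) : ℝ)) * (t : ℝ) = t := by simp
  rw [if_pos (by rw [h1]; exact t.2.2), h1, projIcc_val]

theorem exH_pa {X : Type} [TopologicalSpace X] (f : C(A, B)) (e : C(X, EE f)) (δ : C(X × I, B))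
    (h : ∀ x, δ (x, 0) = EE.endp f (e x)) (p : X × I) : EE.pa f (exH f e δ h p) =
      EE.pa f (e p.1) := rfl

theorem exH_endp {X : Type} [TopologicalSpace X] (f : C(A, B)) (e : C(X, EE f)) (δ : C(X × I, B))
    (h : ∀ x, δ (x, 0) = EE.endp f (e x)) (p : X × I) : EE.endp f (exH f e δ h p) = δ p := by
  obtain ⟨x, u⟩ := p
  by_cases hu : u = 0
  · subst hu
    exact (congrArg (EE.endp f) (exH_zero f e δ h x)).trans (h x).symm
  · change (if (1 + (u : ℝ)) * ((1 : I) : ℝ) ≤ 1 then _ else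
      δ (x, projIcc 0 1 zero_le_one ((1 + (u : ℝ)) * ((1 : I) : ℝ) - 1))) = _
    have h0 : (0 : ℝ) < u := lt_of_le_of_ne u.2.1 (fun h' => hu (Subtype.ext h'.symm))
    have h1 : (1 + (u : ℝ)) * ((1 : I) : ℝ) = 1 + u := by simp
    have h5 : (1 : ℝ) + (u : ℝ) - 1 = u := by ring
    rw [h1, if_neg (by linarith), h5, projIcc_val]

variable (f : C(A, B)) (a0 : A) [SimplyConnectedSpace A]

/-! ### The part of the total space over a simplex -/

/-- the part of the path fibration over a simplex of the universal cover -/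
def Es {n : ℕ} (s : CS (f a0) n) : Type := {x : EE f × Dl n // clf f a0 x.1 = s.toFun x.2}

instance {n : ℕ} (s : CS (f a0) n) : TopologicalSpace (Es f a0 s) := instTopologicalSpaceSubtype

/-- maps between these parts -/
def em {m n : ℕ} {r : CS (f a0) m} {s : CS (f a0) n} (δ : C(Dl m, Dl n)) (h : r = s.comp δ) :
    C(Es f a0 r, Es f a0 s) :=
  ⟨fun x => ⟨(x.1.1, δ x.1.2), x.2.trans (congrArg (fun q : CS (f a0) m => q.toFun x.1.2) h)⟩, by
    refine Continuous.subtype_mk ?_ _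
    exact (continuous_fst.comp continuous_subtype_val).prodMk
      (δ.continuous.comp (continuous_snd.comp continuous_subtype_val))⟩

/-- inclusion of the part over a face -/
def fi {n : ℕ} (s : CS (f a0) (n + 1)) (i : Fin (n + 1)) : C(Es f a0 (cfc s i), Es f a0 s) :=
  em f a0 (cf i) rfl

/-- the simplex of the universal cover under a simplex of the total space -/
def prS {n : ℕ} (e : Smp n (EE f)) : CS (f a0) n := (cl f a0).comp e

/-- the same for chains -/
def prC (n : ℕ) : Ch ℚ n (EE f) →ₗ[ℚ] CC (f a0) n := Finsupp.lmapDomain ℚ ℚ (prS f a0)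

@[simp] theorem prC_single (n : ℕ) (e : Smp n (EE f)) (r : ℚ) :
    prC f a0 n (Finsupp.single e r) = Finsupp.single (prS f a0 e) r := by
  simp [prC, Finsupp.mapDomain_single]

theorem cbd_prC (n : ℕ) (x : Ch ℚ (n + 1) (EE f)) :
    cbd (f a0) n (prC f a0 (n + 1) x) = prC f a0 n (bd ℚ n (EE f) x) :=
  altbd_mapDomain ℚ (fun s i => fc s i) (fun s i => cfc s i) (prS f a0) (prS f a0)
    (fun _ _ => rfl) x

/-- the tautological simplex -/
def tau {n : ℕ} (e : Smp n (EE f)) : Smp n (Es f a0 (prS f a0 e)) :=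
  ⟨fun t => ⟨(e t, t), rfl⟩, (e.continuous.prodMk continuous_id).subtype_mk _⟩

/-- the simplex is constant, equal to the base point -/
def IsK {n : ℕ} (s : CS (f a0) n) : Prop := ∀ t, s.toFun t = BT.one (f a0)

/-- the constant simplex at the base point, over a constant simplex -/
def kap {n : ℕ} (s : CS (f a0) n) (h : IsK f a0 s) : Smp n (Es f a0 s) :=
  ⟨fun t => ⟨(starE f a0, t), (clf_starE f a0).trans (h t).symm⟩,
    (continuous_const.prodMk continuous_id).subtype_mk _⟩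

/-- the projection to the fibre over a constant simplex -/
def prK {n : ℕ} (s : CS (f a0) n) (h : IsK f a0 s) : C(Es f a0 s, F0 f a0) :=
  ⟨fun x => ⟨x.1.1, x.2.trans (h _)⟩, (continuous_fst.comp continuous_subtype_val).subtype_mk _⟩

/-- compatible maps from the parts over the simplices to the fibre -/
structure RR where
  r : ∀ {n : ℕ} (s : CS (f a0) (n + 1)), C(Es f a0 s, F0 f a0)
  dom : ∀ {n : ℕ} (s : CS (f a0) (n + 1)), ∃ i : C(F0 f a0, Es f a0 s),
    (i.comp (r s)).Homotopic (ContinuousMap.id _)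
  face : ∀ {n : ℕ} (s : CS (f a0) (n + 2)) (i : Fin (n + 2)),
    ((r s).comp (fi f a0 s i)).Homotopic (r (cfc s i))
  kk : ∀ {n : ℕ} (s : CS (f a0) (n + 1)) (h : IsK f a0 s), (r s).Homotopic (prK f a0 s h)

end

/-- topological input -/
def T_TOP : Prop := ∀ (A B : Type) [TopologicalSpace A] [TopologicalSpace B]
  [SimplyConnectedSpace A] (f : C(A, B)) (a0 : A), Nonempty (RR f a0)

/-- acyclicity of the parts over the simplices -/
def T_ACE : Prop := ∀ (A B : Type) [TopologicalSpace A] [TopologicalSpace B]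
  [SimplyConnectedSpace A] (f : C(A, B)) (a0 : A), RR f a0 → ∀ j, Acyc ℚ j (F0 f a0) →
  ∀ (n : ℕ) (s : CS (f a0) (n + 1)), Acyc ℚ j (Es f a0 s)

noncomputable section

variable {A B : Type} [TopologicalSpace A] [TopologicalSpace B] (f : C(A, B)) (a0 : A)
  [SimplyConnectedSpace A]

/-- the alternating sum of the faces of a family of chains -/
def dphi (φ : ∀ (n : ℕ) (s : CS (f a0) n), Ch ℚ n (Es f a0 s)) (n : ℕ) (s : CS (f a0) (n + 1)) :
    Ch ℚ n (Es f a0 s) :=
  ∑ i : Fin (n + 1), (-1 : ℚ) ^ (i : ℕ) • pf ℚ n (fi f a0 s i) (φ n (cfc s i))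

/-- partial lifts of the simplices, in dimension at most `m` (at most `m + 1` vertices) -/
structure Phi (m : ℕ) where
  φ : ∀ (n : ℕ) (s : CS (f a0) n), Ch ℚ n (Es f a0 s)
  kap : ∀ (n : ℕ) (s : CS (f a0) n) (h : IsK f a0 s), φ n s = Finsupp.single (kap f a0 s h) 1
  bd : ∀ n ≤ m, ∀ s : CS (f a0) (n + 1), bd ℚ n (Es f a0 s) (φ (n + 1) s) = dphi f a0 φ n s

/-- the alternating sum of the faces of a family of chains over simplices of the total space -/
def dD (D : ∀ (n : ℕ) (e : Smp n (EE f)), Ch ℚ (n + 1) (Es f a0 (prS f a0 e))) (n : ℕ)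
    (e : Smp (n + 1) (EE f)) : Ch ℚ (n + 1) (Es f a0 (prS f a0 e)) :=
  ∑ i : Fin (n + 1), (-1 : ℚ) ^ (i : ℕ) •
    pf ℚ (n + 1) (em f a0 (r := prS f a0 (fc e i)) (s := prS f a0 e) (cf i) rfl) (D n (fc e i))

/-- homotopies between the tautological simplices and the partial lifts -/
structure DH {m : ℕ} (P : Phi f a0 m) where
  D : ∀ (n : ℕ) (e : Smp n (EE f)), Ch ℚ (n + 1) (Es f a0 (prS f a0 e))
  zero : ∀ e, D 0 e = 0
  bd : ∀ n < m, ∀ e : Smp (n + 1) (EE f), bd ℚ (n + 1) (Es f a0 (prS f a0 e)) (D (n + 1) e) =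
    Finsupp.single (tau f a0 e) 1 - P.φ (n + 1) (prS f a0 e) - dD f a0 D n e

end

/-- existence of partial lifts -/
def T_PHI : Prop := ∀ (A B : Type) [TopologicalSpace A] [TopologicalSpace B]
  [SimplyConnectedSpace A] (f : C(A, B)) (a0 : A) (m : ℕ),
  (∀ j < m, ∀ (n : ℕ) (s : CS (f a0) (n + 1)), Acyc ℚ j (Es f a0 s)) →
  (∀ (n : ℕ) (s : CS (f a0) (n + 1)), Nonempty (Es f a0 s)) → Nonempty (Phi f a0 m)

/-- existence of the homotopies -/
def T_DH : Prop := ∀ (A B : Type) [TopologicalSpace A] [TopologicalSpace B]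
  [SimplyConnectedSpace A] (f : C(A, B)) (a0 : A) (m : ℕ),
  (∀ j < m, ∀ (n : ℕ) (s : CS (f a0) (n + 1)), Acyc ℚ j (Es f a0 s)) →
  ∀ P : Phi f a0 m, Nonempty (DH f a0 P)

noncomputable section

open Classical in
/-- the homology class of a chain, zero if it is not a cycle -/
def kl {X : Type} [TopologicalSpace X] (m : ℕ) (x : Ch ℚ (m + 1) X) : HH ℚ m X :=
  if h : x ∈ ZZ ℚ m X then HH.mk ℚ m X ⟨x, h⟩ else 0

variable {A B : Type} [TopologicalSpace A] [TopologicalSpace B] (f : C(A, B)) (a0 : A)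
  [SimplyConnectedSpace A]

/-- the obstruction class of a simplex with `m + 2` vertices -/
def thet (R : RR f a0) {m : ℕ} (P : Phi f a0 m) : CC (f a0) (m + 2) →ₗ[ℚ] HH ℚ m (F0 f a0) :=
  Finsupp.linearCombination ℚ (fun s : CS (f a0) (m + 2) =>
    kl m (pf ℚ (m + 1) (R.r s) (dphi f a0 P.φ (m + 1) s)))

/-- the difference class of a simplex of the total space with `m + 1` vertices -/
def vee (R : RR f a0) {m : ℕ} (P : Phi f a0 m) (D : DH f a0 P) :
    Ch ℚ (m + 1) (EE f) →ₗ[ℚ] HH ℚ m (F0 f a0) :=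
  Finsupp.linearCombination ℚ (fun e : Smp (m + 1) (EE f) =>
    kl m (pf ℚ (m + 1) (R.r (prS f a0 e))
      (Finsupp.single (tau f a0 e) 1 - P.φ (m + 1) (prS f a0 e) - dD f a0 D.D m e)))

end

/-- `θ` vanishes on boundaries -/
def T_THE : Prop := ∀ (A B : Type) [TopologicalSpace A] [TopologicalSpace B]
  [SimplyConnectedSpace A] (f : C(A, B)) (a0 : A) (R : RR f a0) (m : ℕ) (P : Phi f a0 m),
  1 ≤ m → (∀ x : CC (f a0) (m + 3), thet f a0 R P (cbd (f a0) (m + 2) x) = 0) ∧
  ∀ s : CS (f a0) (m + 2), IsK f a0 s → thet f a0 R P (Finsupp.single s 1) = 0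

/-- `v` of a boundary -/
def T_VEE : Prop := ∀ (A B : Type) [TopologicalSpace A] [TopologicalSpace B]
  [SimplyConnectedSpace A] (f : C(A, B)) (a0 : A) (R : RR f a0) (m : ℕ) (P : Phi f a0 m)
  (D : DH f a0 P), 1 ≤ m → ∀ y : Ch ℚ (m + 2) (EE f),
  vee f a0 R P D (bd ℚ (m + 1) (EE f) y) = - thet f a0 R P (prC f a0 (m + 2) y)

/-- `v` of a cycle in the fibre -/
def T_VEZ : Prop := ∀ (A B : Type) [TopologicalSpace A] [TopologicalSpace B]
  [SimplyConnectedSpace A] (f : C(A, B)) (a0 : A) (R : RR f a0) (m : ℕ) (P : Phi f a0 m)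
  (D : DH f a0 P), 1 ≤ m → ∀ z : ZZ ℚ m (F0 f a0),
  vee f a0 R P D (pf ℚ (m + 1) (F0.inc f a0) z.1) = HH.mk ℚ m (F0 f a0) z

/-- fibration lemma -/
def T_FV : Prop := ∀ (A B : Type) [TopologicalSpace A] [TopologicalSpace B]
  [SimplyConnectedSpace A] (f : C(A, B)) (a0 : A) (m : ℕ), 1 ≤ m →
  (∀ j < m, Acyc ℚ j (F0 f a0)) →
  (∀ z : Ch ℚ (m + 1) (EE f), bd ℚ m (EE f) z = 0 →
    (∃ w : CC (f a0) (m + 2), cbd (f a0) (m + 1) w = prC f a0 (m + 1) z) →
    ∃ y : Ch ℚ (m + 2) (EE f), bd ℚ (m + 1) (EE f) y = z) →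
  (∀ w : CC (f a0) (m + 2), cbd (f a0) (m + 1) w = 0 →
    ∃ (x : Ch ℚ (m + 2) (EE f)) (u : CC (f a0) (m + 3)), bd ℚ (m + 1) (EE f) x = 0 ∧
      w = prC f a0 (m + 2) x + cbd (f a0) (m + 2) u) →
  Acyc ℚ m (F0 f a0)

/-- the total space is homotopy equivalent to `A` -/
def T_EEC : Prop := ∀ (A B : Type) [TopologicalSpace A] [TopologicalSpace B] (f : C(A, B)),
  (∃ e : EE f ≃ₕ A, e.toFun = EE.pa f) ∧ (EE.endp f).Homotopic (f.comp (EE.pa f))

/-- null-homotopic loops -/
def T_FNL : Prop := ∀ (Y : Type) [TopologicalSpace Y] (y0 : Y),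
  Nonempty (F0 (ContinuousMap.const PUnit.{1} y0) PUnit.unit ≃ₜ Pool.Agent.H64.FB.NL Y y0)

/-- homotopy fibres over simply connected spaces -/
def T_FFI : Prop := ∀ (A B : Type) [TopologicalSpace A] [TopologicalSpace B]
  [SimplyConnectedSpace A] [SimplyConnectedSpace B] (f : C(A, B)) (a0 : A),
  Nonempty (F0 f a0 ≃ₜ Pool.Agent.H64.FB.Fib f (f a0))

/-- INPUT (cover part): the chain complex of the universal cover of a good acyclic space is
acyclic -/
def T_COVZ : Prop := ∀ (Y : Type) [TopologicalSpace Y] [PathConnectedSpace Y] (y0 : Y),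
  Pool.Agent.H64.FB.HC Y y0 → Pool.Agent.H64.FB.AC Y → ∀ q, 1 ≤ q → ∀ z : CC y0 (q + 1),
  cbd y0 q z = 0 → ∃ w : CC y0 (q + 2), cbd y0 (q + 1) w = z

end Pool.Agent.H93.FB
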